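import Mathlib
import Pool.Agent.H.MP_2482e1_an.A

namespace Pool.Agent.Results.MP_2482e1_an.Sharp

open Complex Metric

/-- The Caratheodory family on the unit ball of `ℂ^n`. -/
def M (n : ℕ) : Set (EuclideanSpace ℂ (Fin n) → EuclideanSpace ℂ (Fin n)) :=
  {h | DifferentiableOn ℂ h (ball 0 1) ∧ h 0 = 0 ∧ fderiv ℂ h 0 = ContinuousLinearMap.id ℂ _ ∧
    ∀ z ∈ ball (0 : EuclideanSpace ℂ (Fin n)) 1, z ≠ 0 → 0 < (inner ℂ z (h z)).re}

/-- The homogeneous term of degree `m` of `h` at `z`: the `t ^ m` coefficient of `t ↦ h (t z)`. -/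
noncomputable def P {n : ℕ} (h : EuclideanSpace ℂ (Fin n) → EuclideanSpace ℂ (Fin n)) (m : ℕ)
    (z : EuclideanSpace ℂ (Fin n)) : EuclideanSpace ℂ (Fin n) :=
  (m.factorial : ℂ)⁻¹ • iteratedDeriv m (fun t : ℂ => h (t • z)) 0

open Pool.Agent.H.MP_7a60ac_an Pool.Agent.H.MP_2482e1_an
open scoped ComplexConjugate

theorem result (n m : ℕ) (hn : 2 ≤ n) (hm : 2 ≤ m) :
    IsGreatest {x : ℝ | ∃ h ∈ M n, ∃ z : EuclideanSpace ℂ (Fin n), ‖z‖ = 1 ∧ x = ‖P h m z‖}
      (Real.sqrt (((m : ℝ) + 1) ^ (m + 1) / (m : ℝ) ^ m)) := by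
  obtain ⟨n, rfl⟩ := Nat.exists_eq_add_of_le' hn
  obtain ⟨k, rfl⟩ := Nat.exists_eq_add_of_le' hm
  generalize hB : Real.sqrt _ = B
  have B0 : 0 ≤ B := hB ▸ Real.sqrt_nonneg _
  have B2 : B ^ 2 = ((k : ℝ) + 3) ^ (k + 3) / (k + 2) ^ (k + 2) := by
    rw [← hB, Real.sq_sqrt (by positivity)]; push_cast; ring
  constructor
  · refine ⟨fun z => z + (B * z 1 ^ (k + 2) : ℂ) • EuclideanSpace.single 0 1,
      ⟨by fun_prop, by simp, ?_, fun z hz z0 => ?_⟩, EuclideanSpace.single 1 1, by simp, ?_⟩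
    · have p := (EuclideanSpace.proj (𝕜 := ℂ) (1 : Fin (n + 2))).hasFDerivAt (x := 0)
      have := ((hasFDerivAt_id 0).add (((p.pow (k + 2)).const_mul (B : ℂ)).smul_const
        (EuclideanSpace.single (0 : Fin (n + 2)) (1 : ℂ)))).fderiv
      exact this.trans (by ext; simp)
    · rw [mem_ball_zero_iff] at hz
      have r0 := norm_pos_iff.2 z0
      have ns : ‖z 0‖ ^ 2 + ‖z 1‖ ^ 2 ≤ ‖z‖ ^ 2 := by
        rw [EuclideanSpace.norm_sq_eq, Fin.sum_univ_succ, Fin.sum_univ_succ, ← add_assoc]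
        exact le_add_of_nonneg_right (Finset.sum_nonneg fun _ _ => sq_nonneg _)
      have l5 := (abs_le.1 (abs_re_le_norm (B * z 1 ^ (k + 2) * conj (z 0)))).1
      rw [norm_mul, norm_mul, norm_pow, norm_conj, norm_real, Real.norm_of_nonneg B0] at l5
      have l2 : B * ‖z 1‖ ^ (k + 2) * ‖z 0‖ ≤ ‖z‖ ^ (k + 3) := by
        refine le_of_sq_le_sq ?_ (by positivity)
        have am := pow_le_pow_left₀ (by positivity) ((Real.geom_mean_le_arith_mean2_weighted
          (w₁ := 1 / (k + 3)) (w₂ := (k + 2) / (k + 3)) (p₁ := ‖z 0‖ ^ 2) (p₂ := ‖z 1‖ ^ 2 / (k + 2))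
          (by positivity) (by positivity) (by positivity) (by positivity)
          (by field_simp; ring)).trans (show _ ≤ ‖z‖ ^ 2 / (k + 3) by field_simp; exact ns)) (k + 3)
        rw [mul_pow, ← Real.rpow_natCast, ← Real.rpow_natCast (_ ^ (_ : ℝ)),
          ← Real.rpow_mul (by positivity), ← Real.rpow_mul (by positivity),
          show 1 / ((k : ℝ) + 3) * (k + 3 : ℕ) = (1 : ℕ) by push_cast; field_simp,
          show ((k : ℝ) + 2) / (k + 3) * (k + 3 : ℕ) = (k + 2 : ℕ) by push_cast; field_simp,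
          Real.rpow_natCast, Real.rpow_natCast, div_pow, div_pow] at am
        rw [mul_pow, mul_pow, B2]
        field_simp at am ⊢
        exact le_of_eq_of_le (by ring) (am.trans_eq (by ring))
      have l4 := mul_lt_of_lt_one_left (pow_pos r0 2) (pow_lt_one₀ r0.le hz k.succ_ne_zero)
      rw [← pow_add] at l4
      simp only [inner_add_right, inner_smul_right, EuclideanSpace.inner_single_right, one_mul,
        inner_self_eq_norm_sq_to_K, add_re, coe_algebraMap, ← ofReal_pow, ofReal_re]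
      rw [show k + 3 = k.succ + 2 from rfl] at l2
      linarith
    · have : (fun t : ℂ => t • EuclideanSpace.single (1 : Fin (n + 2)) (1 : ℂ) + (B * (t •
          EuclideanSpace.single (1 : Fin (n + 2)) (1 : ℂ)) 1 ^ (k + 2) : ℂ) • EuclideanSpace.single 0 1) =
          fun t : ℂ => t ^ 1 • EuclideanSpace.single (1 : Fin (n + 2)) (1 : ℂ) +
            (B * t ^ (k + 2)) • EuclideanSpace.single 0 1 := by simp
      rw [P, this, iteratedDeriv_fun_add (by fun_prop) (by fun_prop),
        iteratedDeriv_smul_const (by fun_prop), iteratedDeriv_smul_const (by fun_prop),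
        iteratedDeriv_const_mul_field, iteratedDeriv_fun_pow_zero, iteratedDeriv_fun_pow_zero]
      simp [norm_smul, abs_of_nonneg B0]; field_simp
  · rintro _ ⟨h, ⟨hd, h0, hD, hp⟩, u, hu, rfl⟩
    rcases eq_or_ne (P h (k + 2) u) 0 with e | e
    · rwa [e, norm_zero]
    have w0 := norm_pos_iff.2 e
    have := key hd h0 hD (fun z hz => by
      rcases eq_or_ne z 0 with rfl | z0
      · simp
      · exact (hp z hz z0).le) hu (v := (‖P h (k + 2) u‖⁻¹ : ℂ) • P h (k + 2) u)
      (by simp [norm_smul, w0.ne']) (r := √(1 / (k + 2))) (R := √((k + 3) / (k + 2))) (by positivity)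
      (by positivity) (by
        rw [Real.sq_sqrt (by positivity), Real.sq_sqrt (by positivity)]; field_simp; ring) k
    have a : AnalyticAt ℂ (fun t : ℂ => h (t • u)) 0 := (hd.comp (by fun_prop) fun t ht => by
      simpa [norm_smul, hu] using ht).analyticAt (ball_mem_nhds 0 one_pos)
    have c : ∀ y, co (fun t => inner ℂ y (h (t • u))) (k + 2) = inner ℂ y (P h (k + 2) u) := fun y => by
      have := (innerSL ℂ y).iteratedFDeriv_comp_left (a.contDiffAt (n := k + 2)) (i := k + 2) (by simp)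
      rw [co, P, inner_smul_right, div_eq_inv_mul, iteratedDeriv, iteratedDeriv]
      exact congrArg _ (congrArg (· fun _ => 1) this)
    rw [c, inner_smul_left, inner_self_eq_norm_sq_to_K] at this
    generalize ‖P h (k + 2) u‖ = w at this w0
    have e2 : (conj (w : ℂ)⁻¹ * (w : ℂ) ^ 2).re = w := by
      simp [← ofReal_inv, ← ofReal_pow]; field_simp
    have := pow_le_pow_left₀ (by positivity) (le_of_eq_of_le (congrArg _ e2.symm) this) 2
    rw [mul_pow, Real.sq_sqrt (by positivity), ← pow_mul, mul_comm _ 2, pow_mul,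
      Real.sq_sqrt (by positivity), div_pow] at this
    refine le_of_sq_le_sq ?_ B0
    rw [B2]
    field_simp at this ⊢
    refine le_of_mul_le_mul_left (a := (k : ℝ) + 2) ?_ (by positivity)
    exact le_of_eq_of_le (by ring) this

end Pool.Agent.Results.MP_2482e1_an.Sharp
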